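import Pool.Agent.W555.GL.Stm

/-! Project GL: a flat with `κ` covers has at most one cover with fewer than `κ` covers. -/

set_option autoImplicit false

namespace Pool.Agent.W991.GL

open Cardinal Pool.Agent.W555.GL

section

variable {L : Type} [CompleteLattice L] {rk : L → ℕ} {r : ℕ}

lemma rk_mono (H : RkData L rk r) {x y : L} (h : x ≤ y) : rk x ≤ rk y := by
  rcases eq_or_lt_of_le h with h | h
  · rw [h]
  · exact (H.mono x y h).le

lemma eq_of_rk (H : RkData L rk r) {x y : L} (h : x ≤ y) (h' : rk y ≤ rk x) : x = y := by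
  rcases eq_or_lt_of_le h with h | h
  · exact h
  · have := H.mono x y h
    omega

lemma covBy_of_rk (H : RkData L rk r) {G D : L} (h : G ≤ D) (h' : rk D = rk G + 1) : G ⋖ D := by
  refine ⟨lt_of_le_of_ne h (fun he => by rw [he] at h'; omega), ?_⟩
  intro z h1 h2
  have := H.mono _ _ h1
  have := H.mono _ _ h2
  omega

lemma cover_atom (H : RkData L rk r) {G D : L} (h : G ⋖ D) :
    ∃ a : L, IsAtom a ∧ ¬ a ≤ G ∧ a ≤ D ∧ G ⊔ a = D := by
  obtain ⟨a, ha, haD, haG⟩ := H.gen G D h.lt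
  refine ⟨a, ha, haG, haD, ?_⟩
  by_contra hne
  refine h.2 (c := G ⊔ a) ?_ ?_
  · exact left_lt_sup.2 haG
  · exact lt_of_le_of_ne (sup_le h.le haD) hne

lemma rk_cover (H : RkData L rk r) {G D : L} (h : G ⋖ D) : rk D = rk G + 1 := by
  obtain ⟨a, ha, haG, -, he⟩ := cover_atom H h
  rw [← he]
  exact H.atom G a ha haG

lemma rk_sup_covers (H : RkData L rk r) {G D D' : L} (h : G ⋖ D) (h' : G ⋖ D') (hne : D ≠ D') :
    rk (D ⊔ D') = rk G + 2 := by
  obtain ⟨a, ha, haG, haD', he⟩ := cover_atom H h'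
  have h1 : ¬ a ≤ D := by
    intro haD
    apply hne
    have h2 : D' ≤ D := by rw [← he]; exact sup_le h.le haD
    exact (eq_of_rk H h2 (by rw [rk_cover H h, rk_cover H h'])).symm
  have h2 : D ⊔ D' = D ⊔ a := by
    rw [← he, ← sup_assoc, sup_eq_left.2 h.le]
  rw [h2, H.atom D a ha h1, rk_cover H h]

end

theorem bad : StBad := by
  intro L _ rk r H κ F hκ hsmall G D D' hD hD' hne hrk hcD hcD'
  have hGD : G ⋖ D := hD.1
  have hGD' : G ⋖ D' := hD'.1
  have hrDD : rk (D ⊔ D') = rk G + 2 := rk_sup_covers H hGD hGD' hne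
  have hlt : #(pts (D ⊔ D')) < κ := hsmall _ (by omega)
  set A1 : Set L := {C | C ∈ covs F G ∧ C ≤ D ⊔ D'} with hA1
  set A2 : Set L := {C | C ∈ covs F G ∧ ¬ C ≤ D ⊔ D'} with hA2
  have hunion : covs F G ⊆ A1 ∪ A2 := by
    intro C hC
    by_cases h : C ≤ D ⊔ D'
    · exact Or.inl ⟨hC, h⟩
    · exact Or.inr ⟨hC, h⟩
  -- the covers below `D ⊔ D'`
  have c1 : #A1 ≤ #(pts (D ⊔ D')) := by
    have hch : ∀ C : A1, ∃ a : L, IsAtom a ∧ ¬ a ≤ G ∧ a ≤ (C : L) ∧ G ⊔ a = C := fun C =>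
      cover_atom H C.2.1.1
    choose a ha1 ha2 ha3 ha4 using hch
    refine Cardinal.mk_le_of_injective
      (f := fun C : A1 => (⟨a C, ha1 C, (ha3 C).trans C.2.2⟩ : pts (D ⊔ D'))) ?_
    intro C C' hCC
    have h1 : a C = a C' := congrArg Subtype.val hCC
    apply Subtype.ext
    rw [← ha4 C, ← ha4 C', h1]
  -- the other covers
  have c2 : #A2 ≤ #(covs F D) * #(covs F D') := by
    have hneD : ∀ C : A2, D ≠ (C : L) := by
      intro C h
      exact C.2.2 (h ▸ le_sup_left)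
    have hneD' : ∀ C : A2, D' ≠ (C : L) := by
      intro C h
      exact C.2.2 (h ▸ le_sup_right)
    have hr1 : ∀ C : A2, rk (D ⊔ C) = rk G + 2 := fun C =>
      rk_sup_covers H hGD C.2.1.1 (hneD C)
    have hr2 : ∀ C : A2, rk (D' ⊔ C) = rk G + 2 := fun C =>
      rk_sup_covers H hGD' C.2.1.1 (hneD' C)
    have hm1 : ∀ C : A2, D ⊔ (C : L) ∈ covs F D := fun C =>
      ⟨covBy_of_rk H le_sup_left (by rw [hr1, rk_cover H hGD]), sup_le hD.2 C.2.1.2⟩
    have hm2 : ∀ C : A2, D' ⊔ (C : L) ∈ covs F D' := fun C =>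
      ⟨covBy_of_rk H le_sup_left (by rw [hr2, rk_cover H hGD']), sup_le hD'.2 C.2.1.2⟩
    have hinf : ∀ C : A2, (D ⊔ (C : L)) ⊓ (D' ⊔ C) = C := by
      intro C
      set X := (D ⊔ (C : L)) ⊓ (D' ⊔ C) with hX
      have hCX : (C : L) ≤ X := le_inf le_sup_right le_sup_right
      by_contra hno
      have hlt' : (C : L) < X := lt_of_le_of_ne hCX (Ne.symm hno)
      have h1 := H.mono _ _ hlt'
      have h2 := rk_cover H C.2.1.1
      have h3 : X = D ⊔ C := eq_of_rk H inf_le_left (by rw [hr1]; omega)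
      have h4 : X = D' ⊔ C := eq_of_rk H inf_le_right (by rw [hr2]; omega)
      have h5 : D ⊔ D' ≤ X := sup_le (by rw [h3]; exact le_sup_left) (by rw [h4]; exact le_sup_left)
      have h6 : D ⊔ D' = X := eq_of_rk H h5 (by rw [h3, hr1, hrDD])
      apply C.2.2
      rw [h6]
      exact hCX
    rw [Cardinal.mul_def]
    refine Cardinal.mk_le_of_injective
      (f := fun C : A2 => ((⟨D ⊔ C, hm1 C⟩, ⟨D' ⊔ C, hm2 C⟩) : covs F D × covs F D')) ?_
    intro C C' hCC
    have h1 : D ⊔ (C : L) = D ⊔ C' := congrArg Subtype.val (congrArg Prod.fst hCC)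
    have h2 : D' ⊔ (C : L) = D' ⊔ C' := congrArg Subtype.val (congrArg Prod.snd hCC)
    apply Subtype.ext
    rw [← hinf C, ← hinf C', h1, h2]
  calc #(covs F G) ≤ #(A1 ∪ A2 : Set L) := Cardinal.mk_le_mk_of_subset hunion
    _ ≤ #A1 + #A2 := Cardinal.mk_union_le _ _
    _ ≤ #(pts (D ⊔ D')) + #(covs F D) * #(covs F D') := add_le_add c1 c2
    _ < κ := Cardinal.add_lt_of_lt hκ hlt (Cardinal.mul_lt_of_lt hκ hcD hcD')

end Pool.Agent.W991.GL
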